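import Pool.Agent.V11229.UpperParams

/-!
# The upper broadcast domination number is `NP`-hard
-/

namespace Pool.Agent.Results.MP_7a9dcc_lc.GammaBHard

open Pool.Agent.NPC Pool.Agent.V11229 Pool.Agent.V11229.Bcast

/-- The decision problem for the upper broadcast domination number: the instance is a connected
graph with at least two vertices and a number `k`, the question is whether some minimal dominating
broadcast has cost at least `k`. -/
def GammaB (I : FG × ℕ) : Prop :=
  2 ≤ I.1.n ∧ I.1.G.Connected ∧ ∃ f : Fin I.1.n → ℕ, MinimalDominating I.1.G f ∧ I.2 ≤ ∑ v, f v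

/-- Deciding `Γ_b(G) ≥ k` is `NP`-hard. -/
theorem result : NPHardP GammaB := UpperParams.both.2

end Pool.Agent.Results.MP_7a9dcc_lc.GammaBHard
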